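import Pool.Agent.H31.Van
import Pool.Agent.H31.Slater

set_option autoImplicit false

namespace Pool.Agent.Results.MP_34e3ac_co.Classification

open Finset Matrix Pool.Agent.H31.Slater

/-- `L m n`: partitions with at most `m` parts, each at most `n`, written as weakly decreasing
`m`-tuples with entries in `{0, ..., n}`; the order is the componentwise one. -/
abbrev L (m n : ℕ) : Type := {l : Fin m → Fin (n + 1) // Antitone l}

open Classical in
/-- The real adjacency matrix of the Hasse diagram of `L m n`. -/
noncomputable def A (m n : ℕ) : Matrix (L m n) (L m n) ℝ :=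
  (SimpleGraph.hasse (L m n)).adjMatrix ℝ

variable {m n : ℕ}

/-- shifted parts -/
def X (l : L m n) (j : Fin m) : ℕ := l.1 j + (m - j)

lemma X_range (l : L m n) (j : Fin m) : 1 ≤ X l j ∧ X l j ≤ m + n := by
  have := (l.1 j).2
  have := j.2
  unfold X
  omega

lemma X_anti (l : L m n) : StrictAnti (X l) := by
  intro i j h
  have h1 : (l.1 j).val ≤ (l.1 i).val := l.2 h.le
  have h2 : i.val < j.val := h
  have := j.2
  unfold X
  omega

lemma X_inj : Function.Injective (X : L m n → Fin m → ℕ) := by
  intro a b h
  apply Subtype.ext
  funext j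
  have := congrFun h j
  unfold X at this
  exact Fin.ext (by omega)

lemma X_surj (y : Fin m → ℕ) (hy : StrictAnti y) (hr : ∀ j, 1 ≤ y j ∧ y j ≤ m + n) :
    ∃ l : L m n, X l = y := by
  have h1 : ∀ j : Fin m, m - j ≤ y j := by
    intro j
    have hm : m - 1 < m := by have := j.2; omega
    have := anti_gap hy j ⟨m - 1, hm⟩ (by have := j.2; simp only [Fin.le_def]; omega)
    have := (hr ⟨m - 1, hm⟩).1
    simp only at *
    omega
  have h2 : ∀ j : Fin m, y j + j ≤ m + n := by
    intro j
    have hm : 0 < m := by have := j.2; omega
    have := anti_gap hy ⟨0, hm⟩ j (by simp [Fin.le_def])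
    have := (hr ⟨0, hm⟩).2
    simp only at *
    omega
  refine ⟨⟨fun j => ⟨y j - (m - j), by have := h2 j; have := j.2; omega⟩, fun i j h => ?_⟩, ?_⟩
  · have := anti_gap hy i j h
    have := h1 i
    have := h1 j
    have := i.2
    have := j.2
    simp only [Fin.le_def]
    omega
  · funext j
    have := h1 j
    simp only [X]
    omega

lemma le_iff (a b : L m n) : a ≤ b ↔ ∀ j, X a j ≤ X b j := by
  constructor
  · intro h j
    have : (a.1 j).val ≤ (b.1 j).val := h j
    unfold X; omega
  · intro h j
    have := h j
    unfold X at this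
    show (a.1 j).val ≤ (b.1 j).val
    omega

lemma cov_iff (a b : L m n) : a ⋖ b ↔ ∃ j, X b = Function.update (X a) j (X a j + 1) := by
  constructor
  · intro h
    have hle := (le_iff a b).1 h.le
    have hne : (univ.filter fun j => X a j < X b j).Nonempty := by
      by_contra hc
      rw [not_nonempty_iff_eq_empty, filter_eq_empty_iff] at hc
      exact h.ne (X_inj (funext fun j => le_antisymm (hle j) (not_lt.1 (hc (mem_univ j)))))
    obtain ⟨i, hi, hmin⟩ := exists_min_image _ id hne
    have hi' := (mem_filter.1 hi).2
    have hsa : StrictAnti (Function.update (X a) i (X a i + 1)) := by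
      intro p q hpq
      have h1 := X_anti a hpq
      by_cases hq : q = i
      · subst hq
        have h2 : ¬ X a p < X b p := fun h3 =>
          absurd (hmin p (mem_filter.2 ⟨mem_univ _, h3⟩)) (not_le.2 hpq)
        have h4 := X_anti b hpq
        rw [Function.update_self, Function.update_of_ne hpq.ne]
        omega
      · rw [Function.update_of_ne hq]
        by_cases hp : p = i
        · subst hp; rw [Function.update_self]; omega
        · rw [Function.update_of_ne hp]; exact h1
    obtain ⟨c, hc⟩ := X_surj (n := n) _ hsa (by
      intro j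
      by_cases hj : j = i
      · subst hj
        have := X_range b j
        rw [Function.update_self]; omega
      · rw [Function.update_of_ne hj]; exact X_range a j)
    have hac : a ≤ c := (le_iff a c).2 fun j => by
      rw [hc]
      by_cases hj : j = i
      · subst hj; rw [Function.update_self]; omega
      · rw [Function.update_of_ne hj]
    have hcb : c ≤ b := (le_iff c b).2 fun j => by
      rw [hc]
      by_cases hj : j = i
      · subst hj; rw [Function.update_self]; omega
      · rw [Function.update_of_ne hj]; exact hle j
    rcases h.eq_or_eq hac hcb with h1 | h1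
    · subst h1
      have := congrFun hc i
      rw [Function.update_self] at this
      omega
    · exact ⟨i, h1 ▸ hc⟩
  · rintro ⟨i, hi⟩
    have hi1 : X b i = X a i + 1 := by rw [hi, Function.update_self]
    have hi2 : ∀ j, j ≠ i → X b j = X a j := fun j hj => by rw [hi, Function.update_of_ne hj]
    have hab : a ≤ b := (le_iff a b).2 fun j => by
      by_cases hj : j = i
      · subst hj; omega
      · exact (hi2 j hj).ge
    refine covBy_iff_lt_and_eq_or_eq.2 ⟨lt_of_le_of_ne hab ?_, fun c hac hcb => ?_⟩
    · rintro rfl; omega
    · have h1 := (le_iff a c).1 hac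
      have h2 := (le_iff c b).1 hcb
      by_cases h3 : X c i = X a i
      · left
        refine X_inj (funext fun j => ?_)
        by_cases hj : j = i
        · subst hj; exact h3
        · have := h1 j; have := h2 j; have := hi2 j hj; omega
      · right
        refine X_inj (funext fun j => ?_)
        have := h1 j
        have := h2 j
        by_cases hj : j = i
        · subst hj; omega
        · have := hi2 j hj; omega

lemma cov_iff' (a b : L m n) : b ⋖ a ↔ ∃ j, X b = Function.update (X a) j (X a j - 1) := by
  rw [cov_iff]
  refine exists_congr fun i => ?_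
  have h1 := (X_range a i).1
  rw [eq_comm, Function.update_eq_iff, eq_comm (a := X b), Function.update_eq_iff]
  constructor
  · rintro ⟨h2, h3⟩
    exact ⟨by omega, fun j hj => (h3 j hj).symm⟩
  · rintro ⟨h2, h3⟩
    exact ⟨by omega, fun j hj => (h3 j hj).symm⟩

open Classical in
lemma pick (k y : Fin m → ℕ) (hy : Antitone y) (hr : ∀ j, y j ≤ m + n + 1) :
    ∑ b : L m n, (if X b = y then D (m + n + 1) k (X b) else 0) = D (m + n + 1) k y := by
  by_cases h : D (m + n + 1) k y = 0
  · rw [h]
    refine sum_eq_zero fun b _ => ?_
    split_ifs with h1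
    · rw [h1, h]
    · rfl
  · obtain ⟨l, hl⟩ := X_surj (n := n) y (hy.strictAnti_of_injective (D_inj h)) fun j => by
      have := D_pos h j
      have := D_top (by omega) h j
      have := hr j
      omega
    rw [sum_eq_single l, if_pos hl, hl]
    · intro b _ hb
      exact if_neg fun h1 => hb (X_inj (h1.trans hl.symm))
    · intro h1; exact absurd (mem_univ l) h1

open Classical in
lemma nbr (k : Fin m → ℕ) (a : L m n) (u : Fin m → ℕ) (hu : ∀ j, u j ≠ X a j)
    (hanti : ∀ j, Antitone (Function.update (X a) j (u j))) (hr : ∀ j, u j ≤ m + n + 1) :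
    ∑ b : L m n, (if ∃ j, X b = Function.update (X a) j (u j) then D (m + n + 1) k (X b) else 0)
      = ∑ j, D (m + n + 1) k (Function.update (X a) j (u j)) := by
  have h1 : ∀ b : L m n, (if ∃ j, X b = Function.update (X a) j (u j) then D (m + n + 1) k (X b) else 0)
      = ∑ j, if X b = Function.update (X a) j (u j) then D (m + n + 1) k (X b) else 0 := by
    intro b
    split_ifs with h
    · obtain ⟨i, hi⟩ := h
      rw [sum_eq_single i, if_pos hi]
      · intro j _ hj
        refine if_neg fun h2 => hu i ?_
        have h3 := congrFun (hi.symm.trans h2) i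
        rwa [Function.update_self, Function.update_of_ne hj.symm] at h3
      · intro h1; exact absurd (mem_univ i) h1
    · exact (sum_eq_zero fun j _ => if_neg fun h2 => h ⟨j, h2⟩).symm
  simp only [h1]
  rw [sum_comm]
  refine sum_congr rfl fun j _ => pick k _ (hanti j) fun i => ?_
  by_cases hi : i = j
  · subst hi; rw [Function.update_self]; exact hr i
  · rw [Function.update_of_ne hi]; have := X_range a i; omega

open Classical in
lemma eigen (k : Fin m → ℕ) : (A m n) *ᵥ (fun b => D (m + n + 1) k (X b)) =
    fun a => (∑ i, 2 * Real.cos (k i * Real.pi / (m + n + 1 : ℕ))) * D (m + n + 1) k (X a) := by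
  funext a
  rw [← D_step _ k (X a) fun j => (X_range a j).1,
    ← nbr k a (fun j => X a j + 1) (fun j => by omega) ?_ (fun j => by have := X_range a j; omega),
    ← nbr k a (fun j => X a j - 1) (fun j => by have := X_range a j; omega) ?_
      (fun j => by have := X_range a j; omega), ← sum_add_distrib]
  · simp only [mulVec, dotProduct, A, SimpleGraph.adjMatrix_apply, SimpleGraph.hasse_adj]
    refine sum_congr rfl fun b _ => ?_
    simp only [← cov_iff, ← cov_iff']
    by_cases h1 : a ⋖ b <;> by_cases h2 : b ⋖ a
    · exact absurd h2.lt h1.lt.not_gt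
    all_goals simp [h1, h2]
  all_goals
    intro j p q hpq
    rcases hpq.eq_or_lt with rfl | h
    · exact le_rfl
    have h1 := X_anti a h
    by_cases hq : q = j
    · subst hq
      rw [Function.update_self, Function.update_of_ne h.ne]
      omega
    · rw [Function.update_of_ne hq]
      by_cases hp : p = j
      · subst hp; rw [Function.update_self]; omega
      · rw [Function.update_of_ne hp]; omega

lemma sorted (y : Fin m → ℕ) (hy : Function.Injective y) (hr : ∀ j, 1 ≤ y j ∧ y j ≤ m + n) :
    ∃ (l : L m n) (σ : Equiv.Perm (Fin m)), X l = y ∘ σ := by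
  let σ := Tuple.sort (OrderDual.toDual ∘ y)
  have h1 : Antitone (y ∘ σ) := Tuple.monotone_sort (OrderDual.toDual ∘ y)
  obtain ⟨l, hl⟩ := X_surj (n := n) (y ∘ σ) (h1.strictAnti_of_injective (hy.comp σ.injective))
    fun j => hr _
  exact ⟨l, σ, hl⟩

open Classical in
/-- The adjacency matrix of the Hasse diagram of `L(m,n)` is nonsingular exactly when `m` and `n`
are both odd and `min m n` is smaller than the least prime factor of `m + n + 1`. -/
theorem result (m n : ℕ) (hm : 1 ≤ m) (hn : 1 ≤ n) :
    (A m n).det ≠ 0 ↔ Odd m ∧ Odd n ∧ min m n < (m + n + 1).minFac := by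
  rw [← Pool.Agent.H31.Van.cos_iff m n hm hn, Ne, ← Matrix.exists_mulVec_eq_zero_iff]
  have hc : (((m + n + 1 : ℕ) : ℝ) / 2) ^ m ≠ 0 := by positivity
  constructor
  · intro h S hS hcard h0
    apply h
    let k : Fin m → ℕ := S.orderEmbOfFin hcard
    have hk : Function.Injective k := (S.orderEmbOfFin hcard).injective
    have hkr : ∀ i, 1 ≤ k i ∧ k i ≤ m + n := fun i => by
      have := mem_Ico.1 (hS (S.orderEmbOfFin_mem hcard i))
      simp only [k]
      omega
    have hE : ∑ i, 2 * Real.cos (k i * Real.pi / (m + n + 1 : ℕ)) = 0 := by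
      rw [← mul_sum, ← sum_image (s := univ) (g := k)
        (f := fun t : ℕ => Real.cos (t * Real.pi / (m + n + 1 : ℕ))) hk.injOn]
      have : univ.image k = S := S.image_orderEmbOfFin_univ hcard
      rw [this, h0, mul_zero]
    refine ⟨fun b => D (m + n + 1) k (X b), fun h1 => hc ?_, by rw [eigen, hE]; funext a; simp⟩
    rw [← delta_self _ hk, ← expand (m + n) k k hkr hkr]
    refine sum_eq_zero fun y _ => mul_eq_zero_of_right _ ?_
    by_contra h2
    obtain ⟨l, σ, hl⟩ := sorted (n := n) _ (D_inj h2) fun j => by have := (y j).2; omega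
    have h3 := congrFun h1 l
    simp only [Pi.zero_apply] at h3
    rw [hl, D_perm] at h3
    rcases mul_eq_zero.1 h3 with h4 | h4
    · exact (Equiv.Perm.sign σ).ne_zero (by exact_mod_cast h4)
    · exact h2 h4
  · rintro h ⟨v, hv0, hv⟩
    apply hv0
    have hsym : (A m n)ᵀ = A m n := SimpleGraph.transpose_adjMatrix _
    have h1 : ∀ y : Fin m → Fin (m + n), ∑ l, v l * D (m + n + 1) (X l) (fun j => y j + 1) = 0 := by
      intro y
      by_cases hy : Function.Injective fun j => (y j).val + 1
      · have h2 : v ⬝ᵥ (A m n *ᵥ fun b => D (m + n + 1) (fun j => y j + 1) (X b)) = 0 := by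
          rw [dotProduct_mulVec, ← hsym, vecMul_transpose, hv, zero_dotProduct]
        rw [eigen] at h2
        have h3 := h (univ.image fun j => (y j).val + 1) (fun t ht => by
          obtain ⟨j, -, rfl⟩ := mem_image.1 ht
          have := (y j).2
          exact mem_Ico.2 ⟨by omega, by omega⟩) (by rw [card_image_of_injective _ hy]; simp)
        rw [sum_image hy.injOn] at h3
        simp only [dotProduct] at h2
        rw [← mul_sum] at h2
        have h4 : (2 * ∑ i, Real.cos (((y i).val + 1 : ℕ) * Real.pi / (m + n + 1 : ℕ))) *
            ∑ l, v l * D (m + n + 1) (X l) (fun j => y j + 1) = 0 := by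
          rw [← h2, mul_sum]
          exact sum_congr rfl fun l _ => by rw [D_comm]; ring
        exact (mul_eq_zero.1 h4).resolve_left (mul_ne_zero two_ne_zero h3)
      · refine sum_eq_zero fun l _ => mul_eq_zero_of_right _ ?_
        by_contra h2
        exact hy (D_inj h2)
    funext a
    have h2 : ∑ l, v l * (Matrix.of fun i j =>
        if X l i = X a j then ((m + n + 1 : ℕ) : ℝ) / 2 else 0).det = 0 := by
      simp only [← expand (m + n) _ (X a) (X_range _) (X_range a), mul_sum]
      rw [sum_comm]
      refine sum_eq_zero fun y _ => ?_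
      simp only [mul_left_comm (v _)]
      rw [← mul_sum, h1, mul_zero]
    rw [sum_eq_single a, delta_self _ (X_anti a).injective] at h2
    · exact (mul_eq_zero.1 h2).resolve_right hc
    · intro b _ hb
      rw [delta_ne _ (X_anti b) (X_anti a) fun h3 => hb (X_inj h3), mul_zero]
    · intro h3; exact absurd (mem_univ a) h3

end Pool.Agent.Results.MP_34e3ac_co.Classification
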